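import Pool.Agent.H75.SQ.Basic

/-!
# Quantum statistical algorithms for satisfiability: an observable is useless for most formulas
-/

set_option autoImplicit false

open Finset Matrix Pool.Agent.H75.SQ

namespace Pool.Agent.H10.SQ.BAD

/-- one law -/
theorem one {γ : Type} [Fintype γ] [DecidableEq γ] (hRED : T_RED) (hCNC : T_CNC) (m q : ℕ)
    (w : γ → ℝ) (hw : Pw w) (M : Matrix (Fin q → Fin m × γ) (Fin q → Fin m × γ) ℂ) (hM : Obs M)
    (hm : 0 < m) (δ τ v0 : ℝ) (hδ : dl w ≤ δ) (hτ0 : 0 < τ) (hτ1 : τ ≤ 1)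
    (hp : 3 * q / Real.sqrt m + 12 * q * δ ≤ τ / 4) (hv : |mu w q (tst M) - v0| ≤ τ / 4) :
    EF w m (fun F => ind (τ < |ex F M - v0|)) ≤
      2 * Real.exp (-(τ ^ 2 * m / (27648 * (q + 1) ^ 4))) := by
  have hq0 : (0 : ℝ) ≤ q := Nat.cast_nonneg q
  have h3 : (0 : ℝ) ≤ 3 * q / Real.sqrt m := by positivity
  have h4 : (q : ℝ) * dl w ≤ q * δ := mul_le_mul_of_nonneg_left hδ hq0
  have hd : (q : ℝ) * dl w ≤ 1 / 2 := by nlinarith
  obtain ⟨-, h5⟩ := hRED γ m q w M hm hw hM hd
  have h6 : |EF w m (fun F => ex F M) - mu w q (tst M)| ≤ τ / 4 := by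
    refine h5.trans (le_trans ?_ hp)
    have : 12 * (q : ℝ) * dl w ≤ 12 * q * δ := by nlinarith
    linarith
  have h7 := hCNC γ w hw m q M (τ / 4) hm hM (by linarith) (by linarith)
  have h8 : EF w m (fun F => ind (τ < |ex F M - v0|)) ≤
      EF w m (fun F => ind (τ / 4 < |ex F M - EF w m (fun F => ex F M)|)) := by
    refine EF_mono w hw.1 m _ _ fun F => ind_mono _ _ fun h => ?_
    have e1 : |ex F M - v0| ≤ |ex F M - EF w m (fun F => ex F M)| +
        |EF w m (fun F => ex F M) - v0| := abs_sub_le _ _ _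
    have e2 : |EF w m (fun F => ex F M) - v0| ≤
        |EF w m (fun F => ex F M) - mu w q (tst M)| + |mu w q (tst M) - v0| := abs_sub_le _ _ _
    linarith
  refine h8.trans (h7.trans (le_of_eq ?_))
  have e : (τ / 4) ^ 2 * m / (1728 * ((q : ℝ) + 1) ^ 4) =
      τ ^ 2 * m / (27648 * ((q : ℝ) + 1) ^ 4) := by
    have : ((q : ℝ) + 1) ^ 4 ≠ 0 := by positivity
    field_simp
    ring
  rw [e]

theorem pf_BAD (hSET : T_SET) (hRED : T_RED) (hCNC : T_CNC) (hWTS : T_WTS) : T_BAD := by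
  intro n k r q m Q Λ κ τ M hn hm hQ hΛ hτ0 hτ1 hκ hq hp hM
  classical
  have hW := fun z : Fin n → Bool => hWTS n k r Q z hn hQ
  have hu : Pw (uc : Cl n k → ℝ) := (hW fun _ => false).1
  have hΛ1 : 1 ≤ Λ := ((hW fun _ => false).2.2.2.2.2.1).trans hΛ
  have hd0 : (0 : ℝ) < (2 * n) ^ k := by
    have : (0 : ℝ) < n := by exact_mod_cast hn
    positivity
  have hdu : dl (uc : Cl n k → ℝ) ≤ Real.sqrt (Λ / (2 * n) ^ k) := by
    refine Real.le_sqrt_of_sq_le ?_
    rw [(hW fun _ => false).2.2.2.1]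
    exact div_le_div_of_nonneg_right hΛ1 hd0.le
  have hdp : ∀ z : Fin n → Bool, dl (pc Q z) ≤ Real.sqrt (Λ / (2 * n) ^ k) := by
    intro z
    refine Real.le_sqrt_of_sq_le ?_
    rw [(hW z).2.2.2.2.1]
    exact div_le_div_of_nonneg_right hΛ hd0.le
  have hE := fun (w : Cl n k → ℝ) (hw : Pw w) (hδ : dl w ≤ Real.sqrt (Λ / (2 * n) ^ k))
      (hv : |mu w q (tst M) - mu uc q (tst M)| ≤ τ / 4) =>
    one hRED hCNC m q w hw M hM hm (Real.sqrt (Λ / (2 * n) ^ k)) τ (mu uc q (tst M)) hδ hτ0 hτ1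
      hp hv
  constructor
  · have ht : ∀ A, |tst M A| ≤ 1 := by
      have hq0 : (0 : ℝ) ≤ q := Nat.cast_nonneg q
      have h3 : (0 : ℝ) ≤ 3 * q / Real.sqrt m := by positivity
      have h4 := mul_le_mul_of_nonneg_left hdu hq0
      exact (hRED (Cl n k) m q uc M hm hu hM (by nlinarith)).1
    have hS := hSET n k r q Q Λ κ (τ / 4) (tst M) hn hQ hΛ (by linarith) (by linarith) hκ
      (by nlinarith) ht
    set B : Set (Fin n → Bool) :=
      {z | τ / 4 < |mu (pc Q z) q (tst M) - mu uc q (tst M)|} with hB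
    set X : ℝ := 2 * Real.exp (-(τ ^ 2 * m / (27648 * ((q : ℝ) + 1) ^ 4))) with hX
    have hX0 : 0 ≤ X := by rw [hX]; positivity
    have h1 : ∀ z : Fin n → Bool,
        EF (pc Q z) m (fun F => ind (τ < |ex F M - mu uc q (tst M)|)) ≤
          (if z ∈ B then 1 else 0) + X := by
      intro z
      by_cases hz : z ∈ B
      · rw [if_pos hz]
        have e1 : EF (pc Q z) m (fun F => ind (τ < |ex F M - mu uc q (tst M)|)) ≤
            EF (pc Q z) m (fun _ => 1) :=
          EF_mono _ (hW z).2.1.1 m _ _ fun F => ind_le_one _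
        rw [EF_const _ (hW z).2.1] at e1
        linarith
      · rw [if_neg hz, zero_add]
        exact hE (pc Q z) (hW z).2.1 (hdp z) (not_lt.1 hz)
    have h2 : ∑ z : Fin n → Bool, EF (pc Q z) m
        (fun F => ind (τ < |ex F M - mu uc q (tst M)|)) ≤ (B.ncard : ℝ) + 2 ^ n * X := by
      refine (Finset.sum_le_sum fun z _ => h1 z).trans (le_of_eq ?_)
      rw [Finset.sum_add_distrib, Finset.sum_const, nsmul_eq_mul, Finset.card_univ]
      have e1 : (Fintype.card (Fin n → Bool) : ℝ) = 2 ^ n := by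
        rw [Fintype.card_fun, Fintype.card_bool, Fintype.card_fin]
        push_cast
        rfl
      rw [e1, Finset.sum_ite, Finset.sum_const_zero, add_zero, Finset.sum_const, nsmul_eq_mul,
        mul_one]
      have e2 : B.ncard = (univ.filter fun z => z ∈ B).card := by
        rw [← Set.ncard_coe_finset]
        refine congrArg Set.ncard ?_
        ext z
        simp
      rw [e2]
    unfold Ppl
    have h2n : (0 : ℝ) < 2 ^ n := by positivity
    rw [div_le_iff₀ h2n]
    refine h2.trans ?_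
    have e3 : (64 / τ ^ 2 * Λ ^ q * far n κ / 2 ^ n + X) * 2 ^ n =
        4 / (τ / 4) ^ 2 * Λ ^ q * far n κ + 2 ^ n * X := by
      field_simp
      ring
    rw [e3]
    linarith
  · unfold Pun
    refine hE uc hu hdu ?_
    rw [sub_self, abs_zero]
    linarith

end Pool.Agent.H10.SQ.BAD
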