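import Pool.Agent.H75.SQ.Basic

/-!
# Quantum statistical algorithms for satisfiability: the assignments that a test detects
-/

set_option autoImplicit false

open Finset Matrix Pool.Agent.H75.SQ

namespace Pool.Agent.H10.SQ.SET

/-- the likelihood ratio -/
noncomputable def lr {n k : ℕ} (Q : (Fin k → Bool) → ℝ) (z : Fin n → Bool) (C : Cl n k) : ℝ :=
  2 ^ k * Q (pat z C)

/-- the kernel -/
noncomputable def ke {n k : ℕ} (Q : (Fin k → Bool) → ℝ) (z z' : Fin n → Bool) : ℝ :=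
  ∑ C : Cl n k, uc C * (lr Q z C * lr Q z' C)

theorem sum_W {γ : Type} [Fintype γ] (w f : γ → ℝ) (q : ℕ) :
    ∑ A : Fin q → γ, (∏ i, w (A i)) * ∏ i, f (A i) = (∑ C, w C * f C) ^ q := by
  rw [Fintype.sum_pow]
  exact Finset.sum_congr rfl fun A _ => by rw [Finset.prod_mul_distrib]

theorem exp_le {x : ℝ} (h0 : 0 ≤ x) (h1 : x ≤ 1 / 2) : Real.exp x ≤ 1 + 2 * x := by
  have h2 : 1 - x ≤ Real.exp (-x) := by
    have := Real.add_one_le_exp (-x)
    linarith
  have h3 : Real.exp x * Real.exp (-x) = 1 := by rw [← Real.exp_add]; simp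
  have h4 : Real.exp x * (1 - x) ≤ 1 := by
    have := mul_le_mul_of_nonneg_left h2 (Real.exp_pos x).le
    linarith
  have h5 : Real.exp x ≤ 1 / (1 - x) := by
    rw [le_div_iff₀ (by linarith)]
    exact h4
  refine h5.trans ?_
  rw [div_le_iff₀ (by linarith)]
  nlinarith

/-- the power of the kernel -/
theorem pow_le {K Λ κ t s : ℝ} (q r : ℕ) (hK0 : 0 ≤ K) (hK1 : K ≤ Λ)
    (hK2 : |K - 1| ≤ Λ * t ^ r) (hΛ : 1 ≤ Λ) (ht : 0 ≤ t) (hκ : 0 ≤ κ) (hs0 : 0 < s)
    (hs1 : s ≤ 1) (hq : q * Λ * κ ^ r ≤ s ^ 2 / 4) :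
    K ^ q - 1 ≤ s ^ 2 / 2 + Λ ^ q * ind (κ < t) := by
  by_cases h : κ < t
  · rw [ind_true _ h]
    have h1 : K ^ q ≤ Λ ^ q := pow_le_pow_left₀ hK0 hK1 q
    nlinarith [sq_nonneg s]
  · rw [ind_false _ h]
    push Not at h
    have h1 : t ^ r ≤ κ ^ r := pow_le_pow_left₀ ht h r
    have h2 : K ≤ 1 + Λ * κ ^ r := by
      have h3 := (abs_le.1 hK2).2
      have h4 : Λ * t ^ r ≤ Λ * κ ^ r := mul_le_mul_of_nonneg_left h1 (by linarith)
      linarith
    have h3 : 1 + Λ * κ ^ r ≤ Real.exp (Λ * κ ^ r) := by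
      have := Real.add_one_le_exp (Λ * κ ^ r)
      linarith
    have h4 : K ^ q ≤ Real.exp (q * (Λ * κ ^ r)) := by
      rw [Real.exp_nat_mul]
      exact pow_le_pow_left₀ hK0 (h2.trans h3) q
    have h5 : (0 : ℝ) ≤ q * (Λ * κ ^ r) := by positivity
    have h6 : (q : ℝ) * (Λ * κ ^ r) ≤ s ^ 2 / 4 := by
      rw [← mul_assoc]
      exact hq
    have h7 : s ^ 2 ≤ 1 := by nlinarith
    have h8 := exp_le h5 (by linarith)
    linarith

/-- the number of assignments at a large correlation with `z` -/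
theorem far_eq {n : ℕ} (κ : ℝ) (z : Fin n → Bool) (Z : Finset (Fin n → Bool)) :
    ∑ z' ∈ Z, ind (κ < |kap z z'|) ≤ far n κ := by
  classical
  have h1 : ∑ z' ∈ Z, ind (κ < |kap z z'|) ≤ ∑ z' : Fin n → Bool, ind (κ < |kap z z'|) :=
    Finset.sum_le_sum_of_subset_of_nonneg (Finset.subset_univ _) fun _ _ _ => ind_nonneg _
  refine h1.trans (le_of_eq ?_)
  have h2 : ∀ z' : Fin n → Bool, kap z (fun i => xor (z i) (z' i)) = kap (fun _ => false) z' := by
    intro z'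
    unfold kap
    have h3 : (univ.filter fun i => z i ≠ xor (z i) (z' i)) =
        univ.filter fun i => false ≠ z' i := by
      ext i
      simp only [Finset.mem_filter, Finset.mem_univ, true_and]
      cases z i <;> cases z' i <;> simp
    rw [h3]
  let e : (Fin n → Bool) ≃ (Fin n → Bool) :=
    { toFun := fun z' i => xor (z i) (z' i)
      invFun := fun z' i => xor (z i) (z' i)
      left_inv := fun z' => by
        funext i
        show xor (z i) (xor (z i) (z' i)) = z' i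
        cases z i <;> cases z' i <;> rfl
      right_inv := fun z' => by
        funext i
        show xor (z i) (xor (z i) (z' i)) = z' i
        cases z i <;> cases z' i <;> rfl }
  rw [← e.sum_comp]
  have h4 : ∀ z', ind (κ < |kap z (e z')|) =
      if κ < |kap (fun _ => false) z'| then (1 : ℝ) else 0 := by
    intro z'
    have h5 : kap z (e z') = kap (fun _ => false) z' := h2 z'
    rw [h5]
    by_cases h : κ < |kap (fun _ => false) z'|
    · rw [ind_true _ h, if_pos h]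
    · rw [ind_false _ h, if_neg h]
  rw [Finset.sum_congr rfl fun z' _ => h4 z']
  unfold far
  rw [Finset.sum_ite, Finset.sum_const_zero, add_zero, Finset.sum_const, nsmul_eq_mul, mul_one]

/-- the second moment -/
theorem second {n k : ℕ} (q : ℕ) (Q : (Fin k → Bool) → ℝ)
    (hu : Pw (uc : Cl n k → ℝ)) (h1 : ∀ z : Fin n → Bool, ∑ C : Cl n k, uc C * lr Q z C = 1)
    (Z : Finset (Fin n → Bool)) :
    ∑ A : Fin q → Cl n k, (∏ i, uc (A i)) * (∑ z ∈ Z, (∏ i, lr Q z (A i) - 1)) ^ 2 =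
      ∑ z ∈ Z, ∑ z' ∈ Z, (ke Q z z' ^ q - 1) := by
  have h2 : ∀ z z' : Fin n → Bool, ∑ A : Fin q → Cl n k, (∏ i, uc (A i)) *
      ((∏ i, lr Q z (A i) - 1) * (∏ i, lr Q z' (A i) - 1)) = ke Q z z' ^ q - 1 := by
    intro z z'
    have e1 : ∀ A : Fin q → Cl n k, (∏ i, uc (A i)) *
        ((∏ i, lr Q z (A i) - 1) * (∏ i, lr Q z' (A i) - 1)) =
        (∏ i, uc (A i)) * (∏ i, (lr Q z (A i) * lr Q z' (A i))) -
          (∏ i, uc (A i)) * (∏ i, lr Q z (A i)) - (∏ i, uc (A i)) * (∏ i, lr Q z' (A i)) +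
          ∏ i, uc (A i) := by
      intro A
      rw [Finset.prod_mul_distrib]
      ring
    rw [Finset.sum_congr rfl fun A _ => e1 A, Finset.sum_add_distrib, Finset.sum_sub_distrib,
      Finset.sum_sub_distrib]
    rw [sum_W (uc : Cl n k → ℝ) (fun C => lr Q z C * lr Q z' C) q,
      sum_W (uc : Cl n k → ℝ) (fun C => lr Q z C) q,
      sum_W (uc : Cl n k → ℝ) (fun C => lr Q z' C) q, sum_prod _ hu q, h1 z, h1 z']
    show ke Q z z' ^ q - 1 ^ q - 1 ^ q + 1 = ke Q z z' ^ q - 1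
    rw [one_pow]
    ring
  have h3 : ∀ A : Fin q → Cl n k, (∏ i, uc (A i)) * (∑ z ∈ Z, (∏ i, lr Q z (A i) - 1)) ^ 2 =
      ∑ z ∈ Z, ∑ z' ∈ Z, (∏ i, uc (A i)) *
        ((∏ i, lr Q z (A i) - 1) * (∏ i, lr Q z' (A i) - 1)) := by
    intro A
    rw [sq, Finset.sum_mul_sum, Finset.mul_sum]
    exact Finset.sum_congr rfl fun z _ => by rw [Finset.mul_sum]
  rw [Finset.sum_congr rfl fun A _ => h3 A, Finset.sum_comm]
  refine Finset.sum_congr rfl fun z _ => ?_
  rw [Finset.sum_comm]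
  exact Finset.sum_congr rfl fun z' _ => h2 z z'

/-- one sign -/
theorem one_sign (hKER : T_KER) (hWTS : T_WTS) {n k r q : ℕ} (Q : (Fin k → Bool) → ℝ)
    (Λ κ s : ℝ) (g : (Fin q → Cl n k) → ℝ) (hn : 0 < n) (hQ : Law k r Q)
    (hΛ : 2 ^ k * ∑ y, Q y ^ 2 ≤ Λ) (hs0 : 0 < s) (hs1 : s ≤ 1) (hκ : 0 ≤ κ)
    (hq : q * Λ * κ ^ r ≤ s ^ 2 / 4) (hg : ∀ A, |g A| ≤ 1) (Z : Finset (Fin n → Bool))
    (hZ : ∀ z ∈ Z, s < mu (pc Q z) q g - mu uc q g) :
    (Z.card : ℝ) ≤ 2 / s ^ 2 * Λ ^ q * far n κ := by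
  have hu : Pw (uc : Cl n k → ℝ) := (hWTS n k r Q (fun _ => false) hn hQ).1
  have hpc : ∀ (z : Fin n → Bool) (C : Cl n k), pc Q z C = uc C * lr Q z C := fun z C =>
    (hWTS n k r Q z hn hQ).2.2.1 C
  have h1 : ∀ z : Fin n → Bool, ∑ C : Cl n k, uc C * lr Q z C = 1 := by
    intro z
    rw [← (hWTS n k r Q z hn hQ).2.1.2]
    exact Finset.sum_congr rfl fun C _ => (hpc z C).symm
  have hΛ1 : 1 ≤ Λ := ((hWTS n k r Q (fun _ => false) hn hQ).2.2.2.2.2.1).trans hΛ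
  have hl0 : ∀ (z : Fin n → Bool) (C : Cl n k), 0 ≤ lr Q z C := fun z C => by
    have := hQ.nonneg (pat z C)
    unfold lr
    positivity
  have hD : ∀ z : Fin n → Bool, mu (pc Q z) q g - mu uc q g =
      ∑ A : Fin q → Cl n k, (∏ i, uc (A i)) * (g A * (∏ i, lr Q z (A i) - 1)) := by
    intro z
    unfold mu EF
    rw [← Finset.sum_sub_distrib]
    refine Finset.sum_congr rfl fun A _ => ?_
    have e : ∏ i, pc Q z (A i) = (∏ i, uc (A i)) * ∏ i, lr Q z (A i) := by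
      rw [← Finset.prod_mul_distrib]
      exact Finset.prod_congr rfl fun i _ => hpc z (A i)
    rw [e]
    ring
  -- the first moment
  have h2 : s * Z.card ≤ ∑ A : Fin q → Cl n k, (∏ i, uc (A i)) *
      (g A * ∑ z ∈ Z, (∏ i, lr Q z (A i) - 1)) := by
    have e1 : s * Z.card ≤ ∑ z ∈ Z, (mu (pc Q z) q g - mu uc q g) := by
      have : ∑ _z ∈ Z, s = s * Z.card := by
        rw [Finset.sum_const, nsmul_eq_mul, mul_comm]
      rw [← this]
      exact Finset.sum_le_sum fun z hz => (hZ z hz).le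
    refine e1.trans (le_of_eq ?_)
    rw [Finset.sum_congr rfl fun z _ => hD z, Finset.sum_comm]
    refine Finset.sum_congr rfl fun A _ => ?_
    rw [Finset.mul_sum, Finset.mul_sum]
  have h3 : (∑ A : Fin q → Cl n k, (∏ i, uc (A i)) *
      (g A * ∑ z ∈ Z, (∏ i, lr Q z (A i) - 1))) ^ 2 ≤
      (∑ A : Fin q → Cl n k, ∏ i, uc (A i)) *
        ∑ A : Fin q → Cl n k, (∏ i, uc (A i)) *
          (g A * ∑ z ∈ Z, (∏ i, lr Q z (A i) - 1)) ^ 2 := by
    refine Finset.sum_sq_le_sum_mul_sum_of_sq_le_mul _ (fun A _ => prod_nonneg' _ hu.1 q A)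
      (fun A _ => mul_nonneg (prod_nonneg' _ hu.1 q A) (sq_nonneg _)) fun A _ => le_of_eq ?_
    ring
  rw [sum_prod _ hu q, one_mul] at h3
  have h4 : ∑ A : Fin q → Cl n k, (∏ i, uc (A i)) *
        (g A * ∑ z ∈ Z, (∏ i, lr Q z (A i) - 1)) ^ 2 ≤
      ∑ A : Fin q → Cl n k, (∏ i, uc (A i)) * (∑ z ∈ Z, (∏ i, lr Q z (A i) - 1)) ^ 2 := by
    refine Finset.sum_le_sum fun A _ => mul_le_mul_of_nonneg_left ?_ (prod_nonneg' _ hu.1 q A)
    rw [mul_pow]
    have e1 : g A ^ 2 ≤ 1 := by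
      rw [← sq_abs]
      have := hg A
      have := abs_nonneg (g A)
      nlinarith
    have e2 := sq_nonneg (∑ z ∈ Z, (∏ i, lr Q z (A i) - 1))
    nlinarith
  rw [second q Q hu h1 Z] at h4
  have h5 : ∀ z ∈ Z, ∑ z' ∈ Z, (ke Q z z' ^ q - 1) ≤ Z.card * (s ^ 2 / 2) + Λ ^ q * far n κ := by
    intro z _
    have e1 : ∀ z' ∈ Z, ke Q z z' ^ q - 1 ≤ s ^ 2 / 2 + Λ ^ q * ind (κ < |kap z z'|) := by
      intro z' _
      have hk := hKER n k r Q Λ z z' hn hQ hΛ
      refine pow_le q r ?_ hk.1 hk.2 hΛ1 (abs_nonneg _) hκ hs0 hs1 hq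
      exact Finset.sum_nonneg fun C _ => mul_nonneg (hu.1 C) (mul_nonneg (hl0 z C) (hl0 z' C))
    refine (Finset.sum_le_sum e1).trans ?_
    rw [Finset.sum_add_distrib, Finset.sum_const, nsmul_eq_mul, ← Finset.mul_sum]
    have e2 := far_eq κ z Z
    have e3 : (0 : ℝ) ≤ Λ ^ q := by positivity
    have e4 := mul_le_mul_of_nonneg_left e2 e3
    linarith
  have h6 : ∑ z ∈ Z, ∑ z' ∈ Z, (ke Q z z' ^ q - 1) ≤
      Z.card * (Z.card * (s ^ 2 / 2) + Λ ^ q * far n κ) := by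
    refine (Finset.sum_le_sum h5).trans ?_
    rw [Finset.sum_const, nsmul_eq_mul]
  have h7 : (s * Z.card) ^ 2 ≤ Z.card * (Z.card * (s ^ 2 / 2) + Λ ^ q * far n κ) := by
    have e1 : (0 : ℝ) ≤ s * Z.card := by positivity
    exact (pow_le_pow_left₀ e1 h2 2).trans (h3.trans (h4.trans h6))
  have hs2 : 0 < s ^ 2 := by positivity
  have hR : (0 : ℝ) ≤ Λ ^ q * far n κ := by positivity
  rcases Nat.eq_zero_or_pos Z.card with h0 | h0
  · rw [h0, Nat.cast_zero]
    positivity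
  · have hc : (0 : ℝ) < Z.card := by exact_mod_cast h0
    have h8 : (Z.card : ℝ) * (Z.card * (s ^ 2 / 2)) ≤ Z.card * (Λ ^ q * far n κ) := by
      nlinarith
    have h9 := le_of_mul_le_mul_left h8 hc
    have e : 2 / s ^ 2 * Λ ^ q * far n κ = (Λ ^ q * far n κ) / (s ^ 2 / 2) := by
      field_simp
    rw [e, le_div_iff₀ (by positivity)]
    exact h9

theorem pf_SET (hKER : T_KER) (hWTS : T_WTS) : T_SET := by
  intro n k r q Q Λ κ s h hn hQ hΛ hs0 hs1 hκ hq hh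
  classical
  set Zp : Finset (Fin n → Bool) := univ.filter fun z => s < mu (pc Q z) q h - mu uc q h with hZp
  set Zm : Finset (Fin n → Bool) :=
    univ.filter fun z => s < mu (pc Q z) q (fun A => -h A) - mu uc q (fun A => -h A) with hZm
  have hneg : ∀ w : Cl n k → ℝ, mu w q (fun A => -h A) = -mu w q h := by
    intro w
    unfold mu EF
    rw [← Finset.sum_neg_distrib]
    exact Finset.sum_congr rfl fun A _ => by ring
  have h1 := one_sign hKER hWTS Q Λ κ s h hn hQ hΛ hs0 hs1 hκ hq hh Zp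
    (fun z hz => (Finset.mem_filter.1 hz).2)
  have h2 := one_sign hKER hWTS Q Λ κ s (fun A => -h A) hn hQ hΛ hs0 hs1 hκ hq
    (fun A => by rw [abs_neg]; exact hh A) Zm (fun z hz => (Finset.mem_filter.1 hz).2)
  have h3 : {z : Fin n → Bool | s < |mu (pc Q z) q h - mu uc q h|} ⊆ ((Zp ∪ Zm : Finset _) : Set _)
      := by
    intro z hz
    rw [Finset.mem_coe, Finset.mem_union, hZp, hZm, Finset.mem_filter, Finset.mem_filter]
    rcases lt_abs.1 (show s < |mu (pc Q z) q h - mu uc q h| from hz) with h4 | h4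
    · exact Or.inl ⟨Finset.mem_univ _, h4⟩
    · right
      refine ⟨Finset.mem_univ _, ?_⟩
      rw [hneg, hneg]
      linarith
  have h4 : {z : Fin n → Bool | s < |mu (pc Q z) q h - mu uc q h|}.ncard ≤ Zp.card + Zm.card := by
    refine (Set.ncard_le_ncard h3 (Finset.finite_toSet _)).trans ?_
    rw [Set.ncard_coe_finset]
    exact Finset.card_union_le _ _
  have h5 : (({z : Fin n → Bool | s < |mu (pc Q z) q h - mu uc q h|}.ncard : ℕ) : ℝ) ≤
      Zp.card + Zm.card := by exact_mod_cast h4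
  refine h5.trans ((add_le_add h1 h2).trans (le_of_eq ?_))
  ring

end Pool.Agent.H10.SQ.SET
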